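import Pool.Agent.X130.ST.R

/-!
The O(n) model for `n = 0` and `x > x_c(0)` near `x_c(0)`: self-avoiding walks on the honeycomb
lattice with fugacity `x = x_c e^t`, `t > 0` small, in discrete domains which contain a rhombus with
sides of length at least `1 / t`: explicit lower bounds for the free energy and for the density of the
walk.
-/

set_option autoImplicit false

namespace Pool.Agent.Results.MP_4960b8_pr.DensePhase

open Pool.Agent.X130.ST (ZA sn)

/-- Adjacency in the honeycomb lattice (brick-wall coordinates). -/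
def Nbr (p q : ℤ × ℤ) : Prop :=
  (p.2 = q.2 ∧ (p.1 - q.1 = 1 ∨ q.1 - p.1 = 1)) ∨
    (p.1 = q.1 ∧ ((q.2 = p.2 + 1 ∧ Even (p.1 + p.2)) ∨ (p.2 = q.2 + 1 ∧ Even (q.1 + q.2))))

/-- The rhombus with the `2 T R` vertices of the levels `x - y = 1, ..., 2 T` and of the rows
`y = 0, ..., R - 1`. -/
def Rhombus (T R : ℕ) : Set (ℤ × ℤ) :=
  {p | 1 ≤ p.1 - p.2 ∧ p.1 - p.2 ≤ 2 * T ∧ 0 ≤ p.2 ∧ p.2 < R}

/-- The self-avoiding walks with `n` steps in the finite set `D` (with arbitrary first and last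
vertices) which have the property `A`, as lists of `n + 1` vertices. -/
def Walks (D : Finset (ℤ × ℤ)) (n : ℕ) (A : List (ℤ × ℤ) → Prop) : Set (List (ℤ × ℤ)) :=
  {l | (l.length = n + 1 ∧ l.Nodup ∧ l.IsChain Nbr ∧ ∀ p ∈ l, p ∈ D) ∧ A l}

/-- The fugacity `x_c(0) e^t = e^t / √(2 + √2)`. -/
noncomputable def fug (t : ℝ) : ℝ := (Real.sqrt (2 + Real.sqrt 2))⁻¹ * Real.exp t

/-- The sum of `x ^ (number of steps)`, `x = x_c(0) e^t`, over the walks in `D` with the property
`A`. -/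
noncomputable def Z (t : ℝ) (D : Finset (ℤ × ℤ)) (A : List (ℤ × ℤ) → Prop) : ℝ :=
  ∑ n ∈ Finset.range D.card, ((Walks D n A).ncard : ℝ) * fug t ^ n

/-- The probability of the property `A` for the random walk in `D` with law proportional to
`x ^ (number of steps)`, `x = x_c(0) e^t`. -/
noncomputable def Prob (t : ℝ) (D : Finset (ℤ × ℤ)) (A : List (ℤ × ℤ) → Prop) : ℝ :=
  Z t D A / Z t D (fun _ => True)

/-- **Theorem.** There are `c, t₀ > 0` such that for all `0 < t ≤ t₀`, all `T, R ≥ 1 / t` and all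
finite sets `D` of vertices which contain the rhombus with `2 T R` vertices and have at most
`(2 T R)^2` vertices, at the fugacity `x = x_c(0) e^t`:
(1) `exp (2 T R t^(2 - c / log log (1/t))) ≤ Z_D ≤ exp (2 t |D|)`;
(2) the number of vertices visited by the random self-avoiding walk in `D` is at most
`2 T R t^(1 - c / log log (1/t))` with probability at most
`exp (- 2 T R t^(2 - c / log log (1/t)))`. -/
theorem result : ∃ c t₀ : ℝ, 0 < c ∧ 0 < t₀ ∧ t₀ < 1 ∧ ∀ t : ℝ, 0 < t → t ≤ t₀ →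
    ∀ T R : ℕ, 1 / t ≤ T → 1 / t ≤ R → ∀ D : Finset (ℤ × ℤ), (∀ p ∈ Rhombus T R, p ∈ D) →
    (D.card : ℝ) ≤ (2 * T * R) ^ 2 →
    Real.exp (2 * T * R * t ^ (2 - c / Real.log (Real.log (1 / t)))) ≤ Z t D (fun _ => True) ∧
    Z t D (fun _ => True) ≤ Real.exp (2 * t * D.card) ∧
    Prob t D (fun l => (l.length : ℝ) ≤ 2 * T * R * t ^ (1 - c / Real.log (Real.log (1 / t)))) ≤
      Real.exp (-(2 * T * R * t ^ (2 - c / Real.log (Real.log (1 / t))))) := by
  obtain ⟨c, t₀, hc, ht0, ht1, h⟩ := Pool.Agent.X130.ST.dense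
  refine ⟨c, t₀, hc, ht0, ht1, ?_⟩
  intro t ht htt T R hT hR D hD hDc
  obtain ⟨h1, h2, h3⟩ := h t ht htt T R hT hR D hD hDc
  have e : ∀ A : List (ℤ × ℤ) → Prop, Z t D A = ZA (H978R2.Hex.mu0⁻¹ * Real.exp t) D A :=
    fun _ => rfl
  refine ⟨?_, ?_, ?_⟩
  · rw [e]
    exact h1
  · rw [e]
    exact h2
  · unfold Prob
    rw [e, e, div_le_iff₀ (lt_of_lt_of_le (Real.exp_pos _) h1)]
    exact h3

end Pool.Agent.Results.MP_4960b8_pr.DensePhase
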