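import Pool.Agent.X136.ON.Main

/-!
# MP_4960b8_pr: the path of the loop O(n) model for `(n, x)` close to `(1, 1)`

The model is the one of the problem (definitions in `Pool.Agent.X136.ON.Defs`). The domain is any finite
set `E` of edges of the honeycomb lattice which is simply connected (`Simply E`; for instance all
the edges of a finite set of hexagons whose complement is connected, `simply_of_connected` below), and
`a`, `b` are vertices with an edge outside of `E` (`Bdry`). `Conf E a b` is the set of the
configurations: subsets of `E` in which every vertex has degree `0` or `2`, except `a` and `b`, which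
have degree `1`. `prob n x E a b` is the probability with the weights
`x ^ (number of edges) * n ^ (number of closed loops)`; for `n = x = 1` it is critical site
percolation on the triangular lattice. `thru ω V` is the union of the components of `ω` which visit
the set `V` of vertices; `thru ω {a}` is the path from `a` to `b`. `meanLen E a b V` is the mean number
of edges of `thru ω V` for `n = x = 1`.

The theorem: the law of the path, and more generally the law of the union of all the loops which visit a
given finite set `V`, for parameters `n, x > 0` and for `n = x = 1` are at total variation distance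
at most `11 (|log n| + |log x|) √(|V| + meanLen)`.
-/

set_option autoImplicit false

open Finset Pool.Agent.X136.ON

namespace Pool.Agent.Results.MP_4960b8_pr.NearPercolationPath

/-- The edges of a finite set of hexagons with a connected complement form a simply connected
domain. -/
theorem simply_of_connected (S : Finset Hx) (hS : ∀ h h' : Hx, h ∉ S → h' ∉ S →
    Relation.ReflTransGen (fun f g => g ∉ S ∧ ∃ e, (s1 e = f ∧ s2 e = g) ∨ (s1 e = g ∧ s2 e = f))
      h h') : Simply (S.biUnion bd) := by
  have h0 : ∀ h : Hx, ¬ bd h ⊆ S.biUnion bd → h ∉ S := fun h hh hS => hh (subset_biUnion_of_mem bd hS)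
  intro h h' hh hh'
  have h1 := h0 h hh
  have key : ∀ g : Hx, Relation.ReflTransGen
      (fun f g => g ∉ S ∧ ∃ e, (s1 e = f ∧ s2 e = g) ∨ (s1 e = g ∧ s2 e = f)) h g → g ∉ S ∧
      Relation.ReflTransGen (fun f g => ∃ e, e ∉ S.biUnion bd ∧
        ((s1 e = f ∧ s2 e = g) ∨ (s1 e = g ∧ s2 e = f))) h g := by
    intro g hg
    induction hg with
    | refl => exact ⟨h1, Relation.ReflTransGen.refl⟩
    | @tail f g _ hs ih =>
      obtain ⟨hg, e, he⟩ := hs
      refine ⟨hg, ih.2.tail ⟨e, ?_, he⟩⟩
      rw [mem_biUnion]
      rintro ⟨k, hk, hek⟩
      rw [mem_bd] at hek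
      rcases he with ⟨e1, e2⟩ | ⟨e1, e2⟩ <;> rcases hek with e3 | e3
      · exact ih.1 (e1 ▸ e3 ▸ hk)
      · exact hg (e2 ▸ e3 ▸ hk)
      · exact hg (e1 ▸ e3 ▸ hk)
      · exact ih.1 (e2 ▸ e3 ▸ hk)
  exact (key h' (hS h h' h1 (h0 h' hh'))).2

/-- **The path and the loops of the O(n) loop model for `(n, x)` close to `(1, 1)`.** -/
theorem result (E : Finset Ed) (hE : Simply E) (a b : Vx) (ha : Bdry E a) (hb : Bdry E b)
    (n x : ℝ) (hn : 0 < n) (hx : 0 < x) (V : Finset Vx) (X : Set (Finset Ed)) :
    |prob n x E a b (fun ω => thru ω V ∈ X) - prob 1 1 E a b (fun ω => thru ω V ∈ X)| ≤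
      11 * (|Real.log n| + |Real.log x|) * Real.sqrt (V.card + meanLen E a b V) :=
  path_law E hE a b ha hb n x hn hx V X

end Pool.Agent.Results.MP_4960b8_pr.NearPercolationPath
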