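import Pool.Agent.X136.ON.Sand

/-!
# MP_4960b8_pr: the path of the loop O(n) model lies between two percolation exploration paths

The model is the one of the problem (definitions in `Pool.Agent.X136.ON.Defs`). The domain is any finite
set `E` of edges of the honeycomb lattice which is simply connected (`Simply E`), `a`, `b` are
boundary vertices (`Bdry`), `thru ω {a}` is the path `γ` of the configuration `ω`, and `prob n x E a b`
is the probability with the weights `x ^ (number of edges) * n ^ (number of closed loops)`.

`ρ` is one of the two boundary arcs from `a` to `b`: a configuration of the model all of whose edges are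
at the boundary of the domain (`Arc E ρ`: one of the two hexagons of the edge is not in the domain).
`between E ρ γ` is the set of the hexagons of the domain which lie between `ρ` and `γ`.
`perc p E ρ` is site percolation on the hexagons: they have the colour of `ρ` with probability `p`, and
`cfg E ρ F` is the set of the edges which separate the colours, when `F` is the set of the hexagons with
the colour of `ρ`. For `p = 1/2` this is the O(n) loop model with `n = x = 1`.

The theorem, with `p = 1 / (1 + exp (-6 (|log n| + |log x|)))`:
* the region between `ρ` and `γ` for the parameters `n, x > 0` is stochastically larger than for site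
  percolation with parameter `1 - p` and smaller than for site percolation with parameter `p`;
* for every finite set `H` of hexagons, the laws of the set of the hexagons of `H` which lie between `ρ`
  and `γ`, for the parameters `n, x` and for `n = x = 1`, differ on every event at most by twice the sum
  over `H` of the differences of the percolation probabilities for `p` and `1 - p`.
-/

set_option autoImplicit false

open Finset Pool.Agent.X136.ON

namespace Pool.Agent.Results.MP_4960b8_pr.PercolationSandwich

/-- **The path of the O(n) loop model lies between two percolation exploration paths.** -/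
theorem result (E : Finset Ed) (hE : Simply E) (a b : Vx) (ha : Bdry E a) (hb : Bdry E b)
    (ρ : Finset Ed) (h0 : ρ ∈ Conf E a b) (hρ : Arc E ρ) (n x : ℝ) (hn : 0 < n) (hx : 0 < x) (p : ℝ)
    (hp : p = (1 + Real.exp (-(6 * (|Real.log n| + |Real.log x|))))⁻¹) :
    (∀ A : Set (Set Hx), (∀ R R', R ⊆ R' → R ∈ A → R' ∈ A) →
      perc (1 - p) E ρ (fun ω => between E ρ (thru ω {a}) ∈ A) ≤
        prob n x E a b (fun ω => between E ρ (thru ω {a}) ∈ A) ∧
      prob n x E a b (fun ω => between E ρ (thru ω {a}) ∈ A) ≤
        perc p E ρ (fun ω => between E ρ (thru ω {a}) ∈ A)) ∧
    ∀ (H : Finset Hx) (T : Set (Set Hx)),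
      |prob n x E a b (fun ω => between E ρ (thru ω {a}) ∩ ↑H ∈ T) -
        prob 1 1 E a b (fun ω => between E ρ (thru ω {a}) ∩ ↑H ∈ T)| ≤
      2 * ∑ h ∈ H, (perc p E ρ (fun ω => h ∈ between E ρ (thru ω {a})) -
        perc (1 - p) E ρ (fun ω => h ∈ between E ρ (thru ω {a}))) :=
  sandwich hE h0 hρ ha hb hn hx hp

end Pool.Agent.Results.MP_4960b8_pr.PercolationSandwich
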