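import Pool.Agent.X130.ST.K

/-!
The boundary path of the O(n) model for `n = 0`, `x = x_c(0)` (critical self-avoiding walk on the
honeycomb lattice) in long strips: the critical correlation length of the strip of height `T` is
between `T / (C log T)` and `3 T`, with estimates of the partition functions at all distances.
-/

set_option autoImplicit false

namespace Pool.Agent.Results.MP_4960b8_pr.StripCorrelationLength

open Filter Topology

/-- Adjacency in the honeycomb lattice (brick-wall coordinates). -/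
def Nbr (p q : ℤ × ℤ) : Prop :=
  (p.2 = q.2 ∧ (p.1 - q.1 = 1 ∨ q.1 - p.1 = 1)) ∨
    (p.1 = q.1 ∧ ((q.2 = p.2 + 1 ∧ Even (p.1 + p.2)) ∨ (p.2 = q.2 + 1 ∧ Even (q.1 + q.2))))

/-- The strip with the `2 T` levels `x - y = 1, ..., 2 T`, of height `3 T / 2` up to a bounded
error (for edges of length one). -/
def Strip (T : ℕ) : Set (ℤ × ℤ) := {p | 1 ≤ p.1 - p.2 ∧ p.1 - p.2 ≤ 2 * T}

/-- The self-avoiding trajectories with `n` steps in the strip, from row `y = 0` to row `y = N`, as
lists of vertices.  On each level of the strip, the rows `y = 0` and `y = N` are at distance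
`√3 N`. -/
def Walks (T N n : ℕ) : Set (List (ℤ × ℤ)) :=
  {l | l.length = n + 1 ∧ (∃ x : ℤ, l.head? = some (x, 0)) ∧
    (∃ x : ℤ, l.getLast? = some (x, (N : ℤ))) ∧ l.Nodup ∧ l.IsChain Nbr ∧ ∀ p ∈ l, p ∈ Strip T}

/-- The terms of the critical partition function: `x_c(0) ^ n = (2 + √2) ^ (- n / 2)` times the number
of trajectories with `n` steps. -/
noncomputable def term (T N n : ℕ) : ℝ :=
  ((Walks T N n).ncard : ℝ) * ((Real.sqrt (2 + Real.sqrt 2))⁻¹) ^ n

/-- The critical partition function of the trajectories in the strip from row `0` to row `N`. -/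
noncomputable def G (T N : ℕ) : ℝ := ∑' n : ℕ, term T N n

/-- **Theorem.** There is `C > 0` such that for all `T ≥ 2`:
(1) for all `N ≥ 0` the critical partition function `G T N` is finite and
`exp (- C ((log T)^2 + (N/T) log T)) ≤ G T N ≤ exp (C (log T)^2 - N / (3 T))`;
(2) the inverse correlation length `m = lim_N - log (G T N) / N` of the strip exists,
`1 / (3 T) ≤ m ≤ C log T / T`, and `G T N ≥ exp (- m N)` for all `N ≥ 1`. -/
theorem result : ∃ C : ℝ, 0 < C ∧ ∀ T : ℕ, 2 ≤ T →
    (∀ N : ℕ, Summable (term T N) ∧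
      Real.exp (-(C * (Real.log T ^ 2 + N / T * Real.log T))) ≤ G T N ∧
      G T N ≤ Real.exp (C * Real.log T ^ 2 - N / (3 * T))) ∧
    ∃ m : ℝ, Tendsto (fun N : ℕ => -Real.log (G T N) / N) atTop (𝓝 m) ∧
      (∀ N : ℕ, 1 ≤ N → Real.exp (-(m * N)) ≤ G T N) ∧
      1 / (3 * T) ≤ m ∧ m ≤ C * Real.log T / T := by
  have e : ∀ T N n : ℕ, term T N n =
      (Pool.Agent.X130.ST.g T N n : ℝ) * (H978R2.Hex.mu0⁻¹) ^ n := by
    intro T N n
    unfold term
    rw [← Pool.Agent.X130.ST.ncard_GW]
    rfl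
  have e2 : ∀ T N : ℕ, G T N = Pool.Agent.X130.ST.G T N := by
    intro T N
    unfold G Pool.Agent.X130.ST.G
    exact tsum_congr fun n => e T N n
  obtain ⟨C, hC, h⟩ := Pool.Agent.X130.ST.corr
  refine ⟨C, hC, ?_⟩
  intro T hT
  obtain ⟨h1, m, h2, h3, h4, h5⟩ := h T hT
  refine ⟨fun N => ⟨(h1 N).1.congr fun n => (e T N n).symm, ?_, ?_⟩, m, ?_, ?_, h4, h5⟩
  · rw [e2]
    exact (h1 N).2.1
  · rw [e2]
    exact (h1 N).2.2
  · simp only [e2]
    exact h2
  · intro N hN
    rw [e2]
    exact h3 N hN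

end Pool.Agent.Results.MP_4960b8_pr.StripCorrelationLength
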